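import Mathlib
import Pool.Agent.R3.Stmts

/-!
# Drisko's theorem for three matchings (row DRI)
-/

set_option autoImplicit false

namespace Pool.Agent.R3.H92

open Pool.Agent.R3

variable {V : Type} [Fintype V] [DecidableEq V]

/-- partial matching -/
def PMt (σ : Fin 3 → Equiv.Perm V) (l : V → Option (Fin 3)) : Prop :=
  ∀ v w i j, l v = some i → l w = some j → σ i v = σ j w → v = w

/-- number of rows with the label `j` -/
def cnt (l : V → Option (Fin 3)) (j : Fin 3) : ℕ :=
  (Finset.univ.filter (fun v => l v = some j)).card

/-- number of matched rows -/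
def sz (l : V → Option (Fin 3)) : ℕ := (Finset.univ.filter (fun v => l v ≠ none)).card

theorem sz_eq (l : V → Option (Fin 3)) : sz l = cnt l 0 + cnt l 1 + cnt l 2 := by
  unfold sz cnt
  have h : (Finset.univ.filter (fun v => l v ≠ none)) =
      ((Finset.univ.filter (fun v => l v = some 0)) ∪
        (Finset.univ.filter (fun v => l v = some 1))) ∪
          (Finset.univ.filter (fun v => l v = some 2)) := by
    ext v
    simp only [Finset.mem_filter, Finset.mem_univ, true_and, Finset.mem_union]
    rcases h : l v with _ | j
    · simp
    · fin_cases j <;> simp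
  rw [h, Finset.card_union_of_disjoint, Finset.card_union_of_disjoint]
  · rw [Finset.disjoint_left]
    intro v hv hw
    simp only [Finset.mem_filter, Finset.mem_univ, true_and] at hv hw
    rw [hv] at hw
    simp at hw
  · rw [Finset.disjoint_left]
    intro v hv hw
    simp only [Finset.mem_filter, Finset.mem_univ, true_and, Finset.mem_union] at hv hw
    rcases hv with hv | hv <;> rw [hv] at hw <;> simp at hw

theorem cnt_update_some (l : V → Option (Fin 3)) (r : V) (c j : Fin 3) (hr : l r = none) :
    cnt (Function.update l r (some c)) j = cnt l j + if j = c then 1 else 0 := by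
  unfold cnt
  split_ifs with h
  · subst h
    have : (Finset.univ.filter (fun v => Function.update l r (some j) v = some j)) =
        insert r (Finset.univ.filter (fun v => l v = some j)) := by
      ext v
      rcases eq_or_ne v r with rfl | hv
      · simp
      · simp [Function.update_of_ne hv, hv]
    rw [this, Finset.card_insert_of_notMem]
    simp [hr]
  · have : (Finset.univ.filter (fun v => Function.update l r (some c) v = some j)) =
        (Finset.univ.filter (fun v => l v = some j)) := by
      ext v
      rcases eq_or_ne v r with rfl | hv
      · simp [hr, Ne.symm h]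
      · simp [Function.update_of_ne hv]
    rw [this, Nat.add_zero]

theorem cnt_update_none_le (l : V → Option (Fin 3)) (r : V) (j : Fin 3) :
    cnt (Function.update l r none) j ≤ cnt l j := by
  unfold cnt
  apply Finset.card_le_card
  intro v hv
  rw [Finset.mem_filter] at hv ⊢
  refine ⟨Finset.mem_univ _, ?_⟩
  rcases eq_or_ne v r with rfl | hvr
  · simp at hv
  · rw [Function.update_of_ne hvr] at hv
    exact hv.2

theorem sz_update_some (l : V → Option (Fin 3)) (r : V) (c : Fin 3) (hr : l r = none) :
    sz (Function.update l r (some c)) = sz l + 1 := by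
  unfold sz
  have : (Finset.univ.filter (fun v => Function.update l r (some c) v ≠ none)) =
      insert r (Finset.univ.filter (fun v => l v ≠ none)) := by
    ext v
    rcases eq_or_ne v r with rfl | hv
    · simp
    · simp [Function.update_of_ne hv, hv]
  rw [this, Finset.card_insert_of_notMem]
  simp [hr]

theorem sz_update_none (l : V → Option (Fin 3)) (r : V) (hr : l r ≠ none) :
    sz (Function.update l r none) + 1 = sz l := by
  unfold sz
  have : (Finset.univ.filter (fun v => l v ≠ none)) =
      insert r (Finset.univ.filter (fun v => Function.update l r none v ≠ none)) := by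
    ext v
    rcases eq_or_ne v r with rfl | hv
    · simp [hr]
    · simp [Function.update_of_ne hv, hv]
  rw [this, Finset.card_insert_of_notMem]
  simp

/-- the invariant -/
def Inv (σ : Fin 3 → Equiv.Perm V) (l : V → Option (Fin 3)) (x : V) (e : Fin 3 → ℕ)
    (A : Finset V) : Prop :=
  x ∈ A ∧ (∀ v ∈ A, v ≠ x → l v ≠ none) ∧
  ∀ r ∈ A, ∃ l' : V → Option (Fin 3), PMt σ l' ∧ l' r = none ∧ (∀ v, v ∉ A → l' v = l v) ∧
    sz l' = sz l ∧ (∀ j, cnt l' j ≤ cnt l j + e j) ∧
    ∀ v i, l' v = some i → ∃ w j, l w = some j ∧ σ j w = σ i v

theorem inv_zero (σ : Fin 3 → Equiv.Perm V) (l : V → Option (Fin 3)) (x : V) (hl : PMt σ l)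
    (hx : l x = none) : Inv σ l x (fun _ => 0) {x} := by
  refine ⟨Finset.mem_singleton_self _, ?_, ?_⟩
  · intro v hv hvx
    exact absurd (Finset.mem_singleton.1 hv) hvx
  · intro r hr
    rw [Finset.mem_singleton] at hr
    subst hr
    exact ⟨l, hl, hx, fun _ _ => rfl, rfl, fun _ => le_rfl, fun v i h => ⟨v, i, h, rfl⟩⟩

theorem inv_step (σ : Fin 3 → Equiv.Perm V) (a : Fin 3 → ℕ) (l : V → Option (Fin 3)) (x : V)
    (hl : PMt σ l) (hx : l x = none)
    (hmax : ∀ l' : V → Option (Fin 3), PMt σ l' → (∀ j, cnt l' j ≤ a j) → sz l' ≤ sz l)
    (e : Fin 3 → ℕ) (A : Finset V) (hI : Inv σ l x e A) (c : Fin 3)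
    (he : ∀ j, cnt l j + e j + (if j = c then 1 else 0) ≤ a j) :
    ∃ A', A'.card = A.card + 1 ∧ Inv σ l x (fun j => e j + if j = c then 1 else 0) A' := by
  classical
  obtain ⟨hxA, hA, hR⟩ := hI
  -- the columns are covered
  have hcov : ∀ r ∈ A, ∃ w j, l w = some j ∧ σ j w = σ c r := by
    intro r hr
    obtain ⟨l', hp, hn, -, hs, hc, hv⟩ := hR r hr
    by_contra hcon
    have hnot : ∀ v i, l' v = some i → σ i v ≠ σ c r := by
      intro v i hvi heq
      obtain ⟨w, j, hw, hwj⟩ := hv v i hvi
      exact hcon ⟨w, j, hw, hwj.trans heq⟩
    have h1 : PMt σ (Function.update l' r (some c)) := by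
      intro v w i j hvi hwj h
      rcases eq_or_ne v r with rfl | hvr
      · rcases eq_or_ne w v with rfl | hwr
        · rfl
        · rw [Function.update_self, Option.some_inj] at hvi
          rw [Function.update_of_ne hwr] at hwj
          subst hvi
          exact absurd h.symm (hnot w j hwj)
      · rcases eq_or_ne w r with rfl | hwr
        · rw [Function.update_self, Option.some_inj] at hwj
          rw [Function.update_of_ne hvr] at hvi
          subst hwj
          exact absurd h (hnot v i hvi)
        · rw [Function.update_of_ne hvr] at hvi
          rw [Function.update_of_ne hwr] at hwj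
          exact hp v w i j hvi hwj h
    have h2 := hmax _ h1 (by
      intro j
      rw [cnt_update_some l' r c j hn]
      exact le_trans (Nat.add_le_add_right (hc j) _) (he j))
    rw [sz_update_some l' r c hn, hs] at h2
    omega
  choose! hol lab hh1 hh2 using hcov
  -- a holder outside
  have hout : ∃ r ∈ A, hol r ∉ A := by
    by_contra hcon
    push Not at hcon
    have hmaps : ∀ r ∈ A, hol r ∈ A.erase x := by
      intro r hr
      rw [Finset.mem_erase]
      refine ⟨?_, hcon r hr⟩
      intro h
      have := hh1 r hr
      rw [h, hx] at this
      exact absurd this (by simp)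
    have hinj : Set.InjOn hol (A : Set V) := by
      intro r hr r' hr' h
      have h1 := hh1 r hr
      have h1' := hh1 r' hr'
      have h2 := hh2 r hr
      have h2' := hh2 r' hr'
      rw [← h, h1, Option.some_inj] at h1'
      rw [← h, ← h1', h2] at h2'
      exact (σ c).injective h2'
    have := Finset.card_le_card_of_injOn hol hmaps hinj
    rw [Finset.card_erase_of_mem hxA] at this
    have hpos : 0 < A.card := Finset.card_pos.2 ⟨x, hxA⟩
    omega
  obtain ⟨r, hr, hw⟩ := hout
  set w := hol r with hwdef
  have hwl : l w = some (lab r) := hh1 r hr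
  have hwc : σ (lab r) w = σ c r := hh2 r hr
  have hwx : w ≠ x := fun h => hw (h ▸ hxA)
  have hwr : w ≠ r := fun h => hw (h ▸ hr)
  refine ⟨insert w A, Finset.card_insert_of_notMem hw, Finset.mem_insert_of_mem hxA, ?_, ?_⟩
  · intro v hv hvx
    rw [Finset.mem_insert] at hv
    rcases hv with rfl | hv
    · rw [hwl]
      simp
    · exact hA v hv hvx
  · intro q hq
    rw [Finset.mem_insert] at hq
    rcases hq with rfl | hq
    · obtain ⟨l', hp, hn, ho, hs, hc, hv⟩ := hR r hr
      have hw' : l' w = some (lab r) := by rw [ho w hw, hwl]
      have hn' : Function.update l' w none r = none := by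
        rw [Function.update_of_ne (Ne.symm hwr)]
        exact hn
      refine ⟨Function.update (Function.update l' w none) r (some c), ?_, ?_, ?_, ?_, ?_, ?_⟩
      · have key : ∀ v i, v ≠ w → l' v = some i → σ i v ≠ σ c r := by
          intro v i hvw hvi heq
          exact hvw (hp v w i (lab r) hvi hw' (heq.trans hwc.symm))
        intro v u i j hvi huj h
        rcases eq_or_ne v r with rfl | hvr
        · rcases eq_or_ne u v with rfl | hur
          · rfl
          · rw [Function.update_self, Option.some_inj] at hvi
            rw [Function.update_of_ne hur] at huj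
            rcases eq_or_ne u w with rfl | huw
            · rw [Function.update_self] at huj
              exact absurd huj (by simp)
            · rw [Function.update_of_ne huw] at huj
              subst hvi
              exact absurd h.symm (key u j huw huj)
        · rw [Function.update_of_ne hvr] at hvi
          rcases eq_or_ne v w with rfl | hvw
          · rw [Function.update_self] at hvi
            exact absurd hvi (by simp)
          · rw [Function.update_of_ne hvw] at hvi
            rcases eq_or_ne u r with rfl | hur
            · rw [Function.update_self, Option.some_inj] at huj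
              subst huj
              exact absurd h (key v i hvw hvi)
            · rw [Function.update_of_ne hur] at huj
              rcases eq_or_ne u w with rfl | huw
              · rw [Function.update_self] at huj
                exact absurd huj (by simp)
              · rw [Function.update_of_ne huw] at huj
                exact hp v u i j hvi huj h
      · rw [Function.update_of_ne hwr, Function.update_self]
      · intro v hv
        rw [Finset.mem_insert, not_or] at hv
        have hvr : v ≠ r := fun h => hv.2 (h ▸ hr)
        rw [Function.update_of_ne hvr, Function.update_of_ne hv.1, ho v hv.2]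
      · rw [sz_update_some _ _ _ hn']
        rw [sz_update_none l' w (by rw [hw']; simp), hs]
      · intro j
        rw [cnt_update_some _ _ _ _ hn']
        have h1 := cnt_update_none_le l' w j
        have h2 := hc j
        show _ ≤ cnt l j + (e j + if j = c then 1 else 0)
        omega
      · intro v i hvi
        rcases eq_or_ne v r with rfl | hvr
        · rw [Function.update_self, Option.some_inj] at hvi
          subst hvi
          exact ⟨w, lab v, hwl, hwc⟩
        · rw [Function.update_of_ne hvr] at hvi
          rcases eq_or_ne v w with rfl | hvw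
          · rw [Function.update_self] at hvi
            exact absurd hvi (by simp)
          · rw [Function.update_of_ne hvw] at hvi
            exact hv v i hvi
    · obtain ⟨l', hp, hn, ho, hs, hc, hv⟩ := hR q hq
      refine ⟨l', hp, hn, ?_, hs, ?_, hv⟩
      · intro v hv'
        exact ho v (fun h => hv' (Finset.mem_insert_of_mem h))
      · intro j
        have h2 := hc j
        show _ ≤ cnt l j + (e j + if j = c then 1 else 0)
        omega

theorem dri : DriStmt := by
  intro V _ _ σ a ha
  classical
  -- a maximal partial matching
  obtain ⟨l, ⟨hl, hla⟩, hmax⟩ : ∃ l : V → Option (Fin 3), (PMt σ l ∧ ∀ j, cnt l j ≤ a j) ∧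
      ∀ l' : V → Option (Fin 3), PMt σ l' → (∀ j, cnt l' j ≤ a j) → sz l' ≤ sz l := by
    obtain ⟨l, hl, hm⟩ := Finset.exists_max_image
      (Finset.univ.filter (fun l : V → Option (Fin 3) => PMt σ l ∧ ∀ j, cnt l j ≤ a j)) sz
      ⟨fun _ => none, by
        rw [Finset.mem_filter]
        refine ⟨Finset.mem_univ _, ?_, ?_⟩
        · intro v w i j h
          exact absurd h (by simp)
        · intro j
          simp [cnt]⟩
    rw [Finset.mem_filter] at hl
    exact ⟨l, hl.2, fun l' h1 h2 => hm l' (Finset.mem_filter.2 ⟨Finset.mem_univ _, h1, h2⟩)⟩
  by_cases hfull : ∀ v, l v ≠ none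
  · have hsome : ∀ v, ∃ j, l v = some j := by
      intro v
      exact Option.ne_none_iff_exists'.1 (hfull v)
    choose f hf using hsome
    refine ⟨f, ?_, ?_⟩
    · intro v w h
      exact hl v w (f v) (f w) (hf v) (hf w) h
    · intro j
      refine le_trans (le_of_eq ?_) (hla j)
      unfold ct cnt
      congr 1
      ext v
      simp [hf v]
  · exfalso
    push Not at hfull
    obtain ⟨x, hx⟩ := hfull
    have hszlt : sz l < Fintype.card V := by
      unfold sz
      rw [← Finset.card_univ]
      apply Finset.card_lt_card
      rw [Finset.ssubset_iff_of_subset (Finset.subset_univ _)]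
      exact ⟨x, Finset.mem_univ _, by simp [hx]⟩
    have hsum := sz_eq l
    have h0 := hla 0
    have h1 := hla 1
    have h2 := hla 2
    have key : ∀ i : ℕ, i ≤ sz l + 1 → ∃ e : Fin 3 → ℕ, (∀ j, cnt l j + e j ≤ a j) ∧
        e 0 + e 1 + e 2 = i ∧ ∃ A : Finset V, A.card = i + 1 ∧ Inv σ l x e A := by
      intro i
      induction i with
      | zero =>
        intro _
        exact ⟨fun _ => 0, hla, rfl, {x}, Finset.card_singleton _, inv_zero σ l x hl hx⟩
      | succ i ih =>
        intro hi
        obtain ⟨e, he, hes, A, hAc, hI⟩ := ih (by omega)
        have hc : ∃ c, cnt l c + e c < a c := by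
          by_contra hcon
          push Not at hcon
          have g0 := hcon 0
          have g1 := hcon 1
          have g2 := hcon 2
          omega
        obtain ⟨c, hc⟩ := hc
        have he' : ∀ j, cnt l j + e j + (if j = c then 1 else 0) ≤ a j := by
          intro j
          split_ifs with h
          · subst h
            omega
          · exact he j
        obtain ⟨A', hA', hI'⟩ := inv_step σ a l x hl hx hmax e A hI c he'
        refine ⟨fun j => e j + if j = c then 1 else 0, ?_, ?_, A', ?_, hI'⟩
        · intro j
          have := he' j
          show cnt l j + (e j + if j = c then 1 else 0) ≤ a j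
          omega
        · show (e 0 + if (0 : Fin 3) = c then 1 else 0) + (e 1 + if (1 : Fin 3) = c then 1 else 0) +
            (e 2 + if (2 : Fin 3) = c then 1 else 0) = i + 1
          fin_cases c <;> simp <;> omega
        · rw [hA', hAc]
    obtain ⟨e, -, -, A, hAc, hI⟩ := key (sz l + 1) le_rfl
    have hsub : A ⊆ insert x (Finset.univ.filter (fun v => l v ≠ none)) := by
      intro v hv
      rw [Finset.mem_insert, Finset.mem_filter]
      by_cases h : v = x
      · exact Or.inl h
      · exact Or.inr ⟨Finset.mem_univ _, hI.2.1 v hv h⟩
    have h3 := Finset.card_le_card hsub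
    have h4 := Finset.card_insert_le x (Finset.univ.filter (fun v => l v ≠ none))
    rw [hAc] at h3
    change _ ≤ sz l + 1 at h4
    omega

end Pool.Agent.R3.H92
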